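import Pool.Agent.K3h48.HM.Stm

/-! HM brick ENT for helper48: continuity of the entropy -/

set_option autoImplicit false

open Filter Topology MeasureTheory

namespace Pool.Agent.K3h68.HM

open Pool.Agent.K3h48.HM

open Classical in
theorem coeff_F {G I : Type} [Group G] [Fintype I] (y : I → G) (c : I → ℝ) (g : G) :
    (∑ i, MonoidAlgebra.single (y i) (c i) : MonoidAlgebra ℝ G).coeff g =
      ∑ i, if y i = g then c i else 0 := by
  rw [MonoidAlgebra.coeff_sum, Finsupp.finsetSum_apply]
  refine Finset.sum_congr rfl fun i _ => ?_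
  rw [MonoidAlgebra.coeff_single, Finsupp.single_apply]

open Classical in
theorem H_formula {G I : Type} [Group G] [Fintype I] (y : I → G) (c : I → ℝ) :
    H (∑ i, MonoidAlgebra.single (y i) (c i) : MonoidAlgebra ℝ G) =
      ∑ i, Real.negMulLog (∑ j, if y j = y i then c j else 0) /
        ((Finset.univ.filter fun j => y j = y i).card : ℝ) := by
  set f : MonoidAlgebra ℝ G := ∑ i, MonoidAlgebra.single (y i) (c i) with hf
  have h1 : H f = ∑ g ∈ Finset.univ.image y, Real.negMulLog (f.coeff g) := by
    refine Finset.sum_subset ?_ ?_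
    · intro g hg
      rw [Finsupp.mem_support_iff] at hg
      by_contra hcon
      apply hg
      rw [hf, coeff_F]
      refine Finset.sum_eq_zero fun i _ => ?_
      rw [if_neg]
      intro h
      exact hcon (Finset.mem_image.2 ⟨i, Finset.mem_univ _, h⟩)
    · intro g _ hg
      rw [Finsupp.notMem_support_iff] at hg
      rw [hg, Real.negMulLog_zero]
  have h2 := Finset.sum_comp (s := (Finset.univ : Finset I)) (fun g : G => Real.negMulLog (f.coeff g) /
    ((Finset.univ.filter fun j => y j = g).card : ℝ)) y
  have h3 : ∀ i, f.coeff (y i) = ∑ j, if y j = y i then c j else 0 := fun i => by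
    rw [hf, coeff_F]
  simp only [h3] at h2
  rw [h1, h2]
  refine Finset.sum_congr rfl fun g hg => ?_
  obtain ⟨i, -, rfl⟩ := Finset.mem_image.1 hg
  have h4 : ((Finset.univ.filter fun j => y j = y i).card : ℝ) ≠ 0 := by
    have : 0 < (Finset.univ.filter fun j => y j = y i).card :=
      Finset.card_pos.2 ⟨i, by simp⟩
    exact_mod_cast this.ne'
  rw [nsmul_eq_mul]
  field_simp

theorem t_ENT : S_ENT := by
  classical
  intro G _ _ _ _ Γn W hW hΓ I _ c c' y y' hc hy hyΓ
  have hker : ∀ᶠ n in atTop, ∀ i j, (y n i = y n j ↔ y' i = y' j) := by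
    rw [eventually_all]
    intro i
    rw [eventually_all]
    intro j
    by_cases h : y' i = y' j
    · have h1 : Tendsto (fun n => (y n i)⁻¹ * y n j) atTop (𝓝 1) := by
        have := (hy i).inv.mul (hy j)
        rwa [h, inv_mul_cancel] at this
      filter_upwards [h1.eventually hW, hΓ, hyΓ] with n h2 h3 h4
      have h5 := h3 _ ((Γn n).mul_mem ((Γn n).inv_mem (h4 i)) (h4 j)) h2
      exact ⟨fun _ => h, fun _ => inv_mul_eq_one.1 h5⟩
    · have h0 : ∀ᶠ n in atTop, y n i ≠ y n j :=
        ((hy i).prodMk_nhds (hy j)).eventually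
          (isClosed_diagonal.isOpen_compl.mem_nhds (show (y' i, y' j) ∈ (Set.diagonal G)ᶜ from h))
      filter_upwards [h0] with n h1
      exact ⟨fun h2 => absurd h2 h1, fun h2 => absurd h2 h⟩
  rw [H_formula]
  have hlim : Tendsto (fun n => ∑ i, Real.negMulLog (∑ j, if y' j = y' i then c n j else 0) /
      ((Finset.univ.filter fun j => y' j = y' i).card : ℝ)) atTop
      (𝓝 (∑ i, Real.negMulLog (∑ j, if y' j = y' i then c' j else 0) /
        ((Finset.univ.filter fun j => y' j = y' i).card : ℝ))) := by
    refine tendsto_finsetSum _ fun i _ => ?_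
    refine Tendsto.div_const ?_ _
    refine (Real.continuous_negMulLog.tendsto _).comp ?_
    refine tendsto_finsetSum _ fun j _ => ?_
    split_ifs
    · exact hc j
    · exact tendsto_const_nhds
  refine hlim.congr' ?_
  filter_upwards [hker] with n hn
  rw [H_formula]
  simp only [hn]

end Pool.Agent.K3h68.HM
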